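import Mathlib
import Pool.Agent.H.MP_520ea7_co.A

set_option autoImplicit false

namespace Pool.Agent.Results.MP_520ea7_co.NoMin

open Pool.Agent.H.MP_520ea7_co

/-- `l` is a sum labeling of `G` -/
def SumLab {V : Type} (G : SimpleGraph V) (l : V → ℕ) : Prop :=
  Function.Injective l ∧ (∀ v, 1 ≤ l v) ∧ ∀ u v, u ≠ v → (G.Adj u v ↔ ∃ w, l w = l u + l v)

def G : SimpleGraph (Fin 8) where
  Adj u v := u ≠ v ∧ ∃ w, lab w = lab u + lab v
  symm := ⟨fun u v h => ⟨h.1.symm, by rw [add_comm]; exact h.2⟩⟩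
  loopless := ⟨fun u h => h.1 rfl⟩

theorem result : ∃ G : SimpleGraph (Fin 8), (∃ l, SumLab G l) ∧
    ∀ l, SumLab G l → ∀ u, l u ≠ 1 := by
  refine ⟨G, ⟨lab, by decide, by decide, fun u v h => ⟨fun k => k.2, fun k => ⟨h, k⟩⟩⟩, ?_⟩
  rintro l ⟨h1, h2, h3⟩ u hu
  have key : ∀ i j : Fin 8, (i ≠ j ∧ ∃ w, lab w = lab i + lab j) → l 0 = l i + l j ∨
      l 1 = l i + l j ∨ l 2 = l i + l j ∨ l 3 = l i + l j ∨ l 4 = l i + l j ∨ l 5 = l i + l j ∨
      l 6 = l i + l j ∨ l 7 = l i + l j := by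
    intro i j h
    obtain ⟨w, hw⟩ := (h3 i j h.1).1 h
    fin_cases w <;> simp_all
  refine tree l h2 (fun i j h k => h (h1 k))
    (fun i j w h k => ((h3 i j h.1).2 ⟨w, k⟩).2.elim fun w hw => h.2 w hw)
    ⟨?_⟩ ⟨?_⟩ ⟨?_⟩ ⟨?_⟩ ⟨?_⟩ ⟨?_⟩ ⟨?_⟩ ⟨?_⟩ ⟨?_⟩ ⟨?_⟩
  · have := key 0 1 (by decide)
    have := h2 0
    have := h2 1
    omega
  · have := key 0 2 (by decide)
    have := h2 0
    have := h2 2
    omega
  · have := key 0 3 (by decide)
    have := h2 0
    have := h2 3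
    omega
  · have := key 0 4 (by decide)
    have := h2 0
    have := h2 4
    omega
  · have := key 0 6 (by decide)
    have := h2 0
    have := h2 6
    omega
  · have := key 1 2 (by decide)
    have := h2 1
    have := h2 2
    omega
  · have := key 1 3 (by decide)
    have := h2 1
    have := h2 3
    omega
  · have := key 1 5 (by decide)
    have := h2 1
    have := h2 5
    omega
  · have := key 2 4 (by decide)
    have := h2 2
    have := h2 4
    omega
  · fin_cases u <;> simp_all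

end Pool.Agent.Results.MP_520ea7_co.NoMin
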